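import Pool.Agent.H17.VS.TargetsA

/-!
# MP_70ba79_ag: linear equations for algebraically independent elements
-/

set_option autoImplicit false

namespace Pool.Agent.H46.VS

open MvPolynomial SC Pool.Agent.H27.LV Pool.Agent.H17.VG Pool.Agent.H17.CI Pool.Agent.H17.VS

/-- a derivation which vanishes on a family vanishes on the elements algebraic over it -/
private theorem der_zero_elem {R k ι : Type} [Field R] [Field k] [CharZero k] [Algebra R k]
    (x : ι → k) (δ : Derivation R k k) (h0 : ∀ i, δ (x i) = 0) (a : k)
    (ha : IsAlgebraic (IntermediateField.adjoin R (Set.range x)) a) : δ a = 0 := by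
  let L := IntermediateField.adjoin R (Set.range x)
  have hL : ∀ l ∈ L, δ l = 0 := by
    intro l hl
    induction hl using IntermediateField.adjoin_induction with
    | mem y hy =>
      obtain ⟨i, rfl⟩ := hy
      exact h0 i
    | algebraMap y => exact δ.map_algebraMap y
    | add y z _ _ h1 h2 => rw [map_add, h1, h2, add_zero]
    | inv y _ h1 => rw [δ.leibniz_inv, h1, smul_zero]
    | mul y z _ _ h1 h2 => rw [δ.leibniz, h1, h2, smul_zero, smul_zero, add_zero]
  let δL : Derivation L k k := Derivation.mk'
    { toFun := δ
      map_add' := δ.map_add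
      map_smul' := by
        intro l b
        have h1 : l • b = (l : k) * b := rfl
        have h2 : l • δ b = (l : k) • δ b := rfl
        rw [h1, δ.leibniz, hL l l.2, smul_zero, add_zero]
        exact h2.symm }
    (fun b b' => δ.leibniz b b')
  have hint : IsIntegral L a := ha.isIntegral
  have hsep : (minpoly L a).Separable := (minpoly.irreducible hint).separable
  have h1 := δL.map_aeval (minpoly L a) a
  rw [minpoly.aeval, map_zero] at h1
  have h2 := hsep.aeval_derivative_ne_zero (minpoly.aeval L a)
  have h3 : δL a = 0 := by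
    rcases smul_eq_zero.1 h1.symm with h | h
    · exact absurd h h2
    · exact h
  exact h3

theorem pf_LCV (hG1 : T_G1) : T_LCV := by
  intro R k _ _ _ _ κ _ c hc ν _ u η _ a halg heq hlin
  classical
  have : CharZero k := charZero_of_injective_algebraMap (algebraMap R k).injective
  obtain ⟨t, hst, ht⟩ := exists_isTranscendenceBasis_superset hc.to_subtype_range
  have hinj : Function.Injective c := hc.injective
  have hex : ∀ M : κ, ∃ D : Derivation R k k, ∀ M', D (c M') = if M' = M then 1 else 0 := by
    intro M
    obtain ⟨D, hD⟩ := hG1 R k t (fun r => r.1) ht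
      (fun r : t => if r.1 = c M then 1 else 0)
    refine ⟨D, fun M' => ?_⟩
    have h1 := hD ⟨c M', hst ⟨M', rfl⟩⟩
    rw [show D (c M') = _ from h1]
    by_cases h : M' = M
    · rw [if_pos h, if_pos (by rw [h])]
    · rw [if_neg h, if_neg (fun h2 => h (hinj h2))]
  choose θ hθ using hex
  obtain ⟨Θ, hΘ⟩ : ∃ Θ : (κ → k) → Derivation R k k, ∀ g, Θ g = ∑ M, g M • θ M :=
    ⟨_, fun _ => rfl⟩
  have hsum : ∀ (g : κ → k) (z : k), Θ g z = ∑ M, g M * θ M z := by
    intro g z
    have h1 : ∀ s : Finset κ, (∑ M ∈ s, g M • θ M : Derivation R k k) z =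
        ∑ M ∈ s, g M * θ M z := by
      intro s
      induction s using Finset.induction_on with
      | empty => simp
      | insert M s hM ih =>
        rw [Finset.sum_insert hM, Finset.sum_insert hM, Derivation.add_apply, ih,
          Derivation.smul_apply, smul_eq_mul]
    rw [hΘ, h1]
  let U : (κ → k) →ₗ[k] (ν → k) :=
    (Matrix.of fun (j : ν) (M : κ) => θ M (u j)).mulVecLin
  let A : (κ → k) →ₗ[k] (η → k) := (Matrix.of a).mulVecLin
  have hker : LinearMap.ker U ≤ LinearMap.ker A := by
    intro g hg
    rw [LinearMap.mem_ker] at hg ⊢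
    have h0 : ∀ j, Θ g (u j) = 0 := by
      intro j
      rw [hsum]
      have h1 := congrFun hg j
      have h2 : U g j = ∑ M, θ M (u j) * g M := rfl
      rw [h2] at h1
      rw [← show (0 : ν → k) j = 0 from rfl, ← h1]
      exact Finset.sum_congr rfl fun M _ => mul_comm _ _
    have hz := der_zero_elem u _ h0
    funext j
    have h3 : A g j = ∑ M, a j M * g M := rfl
    rw [h3, Pi.zero_apply]
    have h4 := congrArg (Θ g) (heq j)
    rw [map_zero, map_sum] at h4
    rw [← h4]
    refine Finset.sum_congr rfl fun M _ => ?_
    rw [Derivation.leibniz, hz (a j M) (halg j M), smul_zero, add_zero, smul_eq_mul, hsum]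
    congr 1
    rw [Finset.sum_eq_single M]
    · rw [hθ, if_pos rfl, mul_one]
    · intro M' _ h5
      rw [hθ, if_neg (fun h6 => h5 h6.symm), mul_zero]
    · intro h5
      exact absurd (Finset.mem_univ _) h5
  have hU := LinearMap.finrank_range_add_finrank_ker U
  have hA := LinearMap.finrank_range_add_finrank_ker A
  have h1 : Module.finrank k (LinearMap.ker U) ≤ Module.finrank k (LinearMap.ker A) :=
    Submodule.finrank_mono hker
  have h2 : Module.finrank k (LinearMap.range U) ≤ Fintype.card ν := by
    have := Submodule.finrank_le (LinearMap.range U)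
    rwa [Module.finrank_fintype_fun_eq_card] at this
  have h3 : Module.finrank k (LinearMap.range A) = Fintype.card η := by
    have h4 : LinearIndependent k (Matrix.of a).row := hlin
    have h5 := h4.rank_matrix
    exact h5
  omega

end Pool.Agent.H46.VS
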