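import Pool.Agent.H17.VS.TargetsA

/-!
# MP_70ba79_ag: normal crossings at a point of a limit of tangent spaces
-/

set_option autoImplicit false

namespace Pool.Agent.H46.VS

open MvPolynomial SC Pool.Agent.H27.LV Pool.Agent.H17.VG Pool.Agent.H17.CI Pool.Agent.H17.VS

private theorem eval_frmT {k : Type} [Field k] {n : ℕ} {ι : Type} {e : ι → ℕ}
    (c : (Σ i, Mon (n + 1) (e i + 1)) → k) (z : Fin (n + 1) → k) (i : ι) :
    eval z (frmT c i) = ∑ M : Mon (n + 1) (e i + 1), c ⟨i, M⟩ * eval z (mono k M.1) := by
  unfold frmT frm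
  rw [map_sum]
  exact Finset.sum_congr rfl fun M _ => by rw [map_mul, eval_C]

private theorem eval_pderiv_frmT {k : Type} [Field k] {n : ℕ} {ι : Type} {e : ι → ℕ}
    (c : (Σ i, Mon (n + 1) (e i + 1)) → k) (z : Fin (n + 1) → k) (i : ι) (a : Fin (n + 1)) :
    eval z (pderiv a (frmT c i)) =
      ∑ M : Mon (n + 1) (e i + 1), c ⟨i, M⟩ * eval z (pderiv a (mono k M.1)) := by
  unfold frmT frm
  rw [map_sum, map_sum]
  refine Finset.sum_congr rfl fun M _ => ?_
  rw [pderiv_C_mul, map_mul, eval_C]

private theorem core (hLC : T_LCV) (hNB : T_NCB) (R k : Type) [Field R] [CharZero R] [Field k]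
    [Algebra R k] (n N : ℕ) (ι : Type) [Fintype ι] (e : ι → ℕ)
    (c : (Σ i, Mon (n + 1) (e i + 1)) → k) (hc : AlgebraicIndependent R c) (u : Fin N → k)
    (z : Fin (n + 1) → k) (B : Finset (Fin n)) (g : Fin n → B → k)
    (hz : ∀ a, IsAlgebraic (IntermediateField.adjoin R (Set.range u)) (z a))
    (hg : ∀ a b, IsAlgebraic (IntermediateField.adjoin R (Set.range u)) (g a b))
    (hgd : ∀ b b' : B, g b.1 b' = if b = b' then 1 else 0) (hm : ∃ m, z m = 1)
    (A : Finset ι) (hA : ∀ i ∈ A, eval z (frmT c i) = 0) (lam : A → k) (i0 : A)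
    (hl0 : lam i0 = 1)
    (hlam : ∀ b : B, ∑ i : A, lam i * ∑ a : Fin n, eval z (pderiv a.succ (frmT c i)) * g a b = 0)
    (β : Type) [Fintype β] (φ : β → B) (hφ : Function.Injective φ)
    (hq : ∃ q, z q ≠ 0 ∧ ∀ b, (Fin.cons 0 (fun a => g a (φ b)) : Fin (n + 1) → k) q = 0)
    (hcard : Fintype.card β = N) : False := by
  classical
  obtain ⟨w, hw⟩ : ∃ w : β → Fin (n + 1) → k, ∀ b, w b = Fin.cons 0 (fun a => g a (φ b)) :=
    ⟨_, fun _ => rfl⟩
  have hw0 : ∀ b, w b 0 = 0 := fun b => by rw [hw]; rfl
  have hws : ∀ b (a : Fin n), w b a.succ = g a (φ b) := fun b a => by rw [hw]; rfl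
  have hwli : LinearIndependent k w := by
    rw [Fintype.linearIndependent_iff]
    intro x hx b
    have h1 := congrFun hx (φ b).1.succ
    rw [Finset.sum_apply, Finset.sum_eq_single b] at h1
    · rw [Pi.smul_apply, hws, hgd, if_pos rfl, smul_eq_mul, mul_one] at h1
      exact h1
    · intro b' _ h2
      rw [Pi.smul_apply, hws, hgd, if_neg (fun h3 => h2 (hφ h3.symm)), smul_zero]
    · intro h2
      exact absurd (Finset.mem_univ _) h2
  have hq' : ∃ q, z q ≠ 0 ∧ ∀ b, w b q = 0 := by
    obtain ⟨q, h1, h2⟩ := hq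
    exact ⟨q, h1, fun b => by rw [hw]; exact h2 b⟩
  have hind := hNB k n ι e A z β w lam i0 hm hwli hq' hl0
  obtain ⟨u', hu'⟩ : ∃ u' : Fin N ⊕ {i : A // i ≠ i0} → k,
      u' = Sum.elim u (fun i => lam i.1) := ⟨_, rfl⟩
  have hle : IntermediateField.adjoin R (Set.range u) ≤
      IntermediateField.adjoin R (Set.range u') := by
    refine IntermediateField.adjoin.mono _ _ _ ?_
    rintro _ ⟨j, rfl⟩
    exact ⟨Sum.inl j, by rw [hu']; rfl⟩
  have hup : ∀ x : k, IsAlgebraic (IntermediateField.adjoin R (Set.range u)) x →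
      x ∈ algebraicClosure (IntermediateField.adjoin R (Set.range u')) k := by
    intro x hx
    rw [mem_algebraicClosure_iff]
    exact IsAlgebraic.tower_top_of_subalgebra_le
      (A := (IntermediateField.adjoin R (Set.range u)).toSubalgebra)
      (B := (IntermediateField.adjoin R (Set.range u')).toSubalgebra) hle hx
  have hlm : ∀ i : A, lam i ∈
      algebraicClosure (IntermediateField.adjoin R (Set.range u')) k := by
    intro i
    by_cases h : i = i0
    · rw [h, hl0]
      exact one_mem _
    · rw [mem_algebraicClosure_iff]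
      have h1 : lam i ∈ IntermediateField.adjoin R (Set.range u') :=
        IntermediateField.subset_adjoin R _ ⟨Sum.inr ⟨i, h⟩, by rw [hu']; rfl⟩
      exact isAlgebraic_algebraMap
        (⟨lam i, h1⟩ : IntermediateField.adjoin R (Set.range u'))
  have hmn : ∀ s : Fin (n + 1) →₀ ℕ, ∀ x : k,
      x ∈ algebraicClosure (IntermediateField.adjoin R (Set.range u')) k →
      eval z (monomial s x) ∈ algebraicClosure (IntermediateField.adjoin R (Set.range u')) k := by
    intro s x hx
    rw [eval_monomial]
    refine mul_mem hx ?_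
    exact prod_mem fun j _ => pow_mem (hup _ (hz j)) _
  have hwm : ∀ b a, w b a ∈ algebraicClosure (IntermediateField.adjoin R (Set.range u')) k := by
    intro b a
    refine Fin.cases ?_ (fun a => ?_) a
    · rw [hw0]
      exact zero_mem _
    · rw [hws]
      exact hup _ (hg _ _)
  have hcoef : ∀ (r : A ⊕ β) (M : Σ i, Mon (n + 1) (e i + 1)),
      IsAlgebraic (IntermediateField.adjoin R (Set.range u')) (eqc (e := e) z w lam r M) := by
    intro r M
    rw [← mem_algebraicClosure_iff]
    rcases r with i | b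
    · have h1 : eqc (e := e) z w lam (Sum.inl i) M =
          if M.1 = i.1 then eval z (mono k M.2.1) else 0 := by
        unfold eqc
        congr
      rw [h1]
      split_ifs
      · exact hmn _ _ (one_mem _)
      · exact zero_mem _
    · have h1 : eqc (e := e) z w lam (Sum.inr b) M =
          if h : M.1 ∈ A then
            lam ⟨M.1, h⟩ * ∑ a, eval z (pderiv a (mono k M.2.1)) * w b a else 0 := by
        unfold eqc
        congr
      rw [h1]
      split_ifs
      · refine mul_mem (hlm _) (sum_mem fun a _ => mul_mem ?_ (hwm b a))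
        unfold mono
        rw [pderiv_monomial]
        refine hmn _ _ ?_
        rw [one_mul]
        exact natCast_mem _ _
      · exact zero_mem _
  have heq : ∀ r : A ⊕ β, ∑ M, eqc (e := e) z w lam r M * c M = 0 := by
    intro r
    rw [Fintype.sum_sigma]
    rcases r with i | b
    · have h1 : ∀ M : Σ i, Mon (n + 1) (e i + 1), eqc (e := e) z w lam (Sum.inl i) M =
          if M.1 = i.1 then eval z (mono k M.2.1) else 0 := by
        intro M
        unfold eqc
        congr
      rw [Finset.sum_eq_single i.1]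
      · rw [← hA i.1 i.2, eval_frmT]
        refine Finset.sum_congr rfl fun M _ => ?_
        rw [h1, if_pos rfl, mul_comm]
      · intro i' _ h2
        refine Finset.sum_eq_zero fun M _ => ?_
        rw [h1, if_neg h2, zero_mul]
      · intro h2
        exact absurd (Finset.mem_univ _) h2
    · have h1 : ∀ M : Σ i, Mon (n + 1) (e i + 1), eqc (e := e) z w lam (Sum.inr b) M =
          if h : M.1 ∈ A then
            lam ⟨M.1, h⟩ * ∑ a, eval z (pderiv a (mono k M.2.1)) * w b a else 0 := by
        intro M
        unfold eqc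
        congr
      have h2 : ∀ i : ι, ∑ M : Mon (n + 1) (e i + 1),
          eqc (e := e) z w lam (Sum.inr b) ⟨i, M⟩ * c ⟨i, M⟩ =
          if h : i ∈ A then lam ⟨i, h⟩ *
            ∑ a : Fin n, eval z (pderiv a.succ (frmT c i)) * g a (φ b) else 0 := by
        intro i
        by_cases hi : i ∈ A
        · rw [dif_pos hi]
          have h3 : ∀ M : Mon (n + 1) (e i + 1),
              eqc (e := e) z w lam (Sum.inr b) ⟨i, M⟩ * c ⟨i, M⟩ =
              lam ⟨i, hi⟩ * ∑ a : Fin n, c ⟨i, M⟩ * eval z (pderiv a.succ (mono k M.1)) *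
                g a (φ b) := by
            intro M
            rw [h1, dif_pos hi, Fin.sum_univ_succ, hw0, mul_zero, zero_add, mul_assoc,
              Finset.sum_mul]
            congr 1
            refine Finset.sum_congr rfl fun a _ => ?_
            rw [hws]
            ring
          rw [Finset.sum_congr rfl fun M _ => h3 M, ← Finset.mul_sum, Finset.sum_comm]
          congr 1
          refine Finset.sum_congr rfl fun a _ => ?_
          rw [eval_pderiv_frmT, Finset.sum_mul]
        · rw [dif_neg hi]
          refine Finset.sum_eq_zero fun M _ => ?_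
          rw [h1, dif_neg hi, zero_mul]
      rw [Finset.sum_congr rfl fun i _ => h2 i]
      refine Eq.trans ?_ (hlam (φ b))
      rw [← Finset.sum_subset (Finset.subset_univ A), ← Finset.sum_attach A]
      · refine Finset.sum_congr rfl fun i _ => ?_
        rw [dif_pos i.2]
      · intro i _ hi
        rw [dif_neg hi]
  have hfin := hLC R k (Σ i, Mon (n + 1) (e i + 1)) c hc (Fin N ⊕ {i : A // i ≠ i0}) u'
    (A ⊕ β) (eqc (e := e) z w lam) hcoef heq hind
  rw [Fintype.card_sum, Fintype.card_sum, Fintype.card_fin, hcard] at hfin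
  have h5 : Fintype.card {i : A // i ≠ i0} < Fintype.card A :=
    Fintype.card_subtype_lt (x := i0) (by simp)
  omega

theorem pf_NCA (hLC : T_LCV) (hNB : T_NCB) : T_NCA := by
  intro R k _ _ _ _ n N ι _ e c hc u z B g hz hg hgd hm hcase A hA
  classical
  by_contra hdep
  rw [Fintype.not_linearIndependent_iff] at hdep
  obtain ⟨l, hl, i0, hi0⟩ := hdep
  have hl0 : l i0 / l i0 = 1 := div_self hi0
  have hlam : ∀ b : B, ∑ i : A, l i / l i0 *
      ∑ a : Fin n, eval z (pderiv a.succ (frmT c i)) * g a b = 0 := by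
    intro b
    have h1 := congrFun hl b
    rw [Finset.sum_apply] at h1
    have h2 : ∀ i : A, l i / l i0 * ∑ a : Fin n, eval z (pderiv a.succ (frmT c i)) * g a b =
        (l i0)⁻¹ * (l i • fun b : B =>
          ∑ a : Fin n, eval z (pderiv a.succ (frmT c i)) * g a b) b := by
      intro i
      rw [Pi.smul_apply, smul_eq_mul]
      ring
    rw [Finset.sum_congr rfl fun i _ => h2 i, ← Finset.mul_sum, h1, Pi.zero_apply, mul_zero]
  rcases hcase with ⟨hz0, hN⟩ | ⟨hz0, hN, hzz⟩
  · refine core hLC hNB R k n N ι e c hc u z B g hz hg hgd hm A hA (fun i => l i / l i0) i0 hl0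
      hlam B id Function.injective_id ⟨0, by rw [hz0]; exact one_ne_zero, fun b => rfl⟩ ?_
    rw [hN, Fintype.card_coe]
  · obtain ⟨b1, hb1⟩ : ∃ b1 : B, z b1.1.succ ≠ 0 := by
      by_contra hno
      push Not at hno
      obtain ⟨m, hm⟩ := hm
      have h1 : ∀ m, z m = 0 := by
        intro m
        refine Fin.cases hz0 (fun a => ?_) m
        rw [hzz a]
        exact Finset.sum_eq_zero fun b _ => by rw [hno b, mul_zero]
      rw [h1 m] at hm
      exact zero_ne_one hm
    refine core hLC hNB R k n N ι e c hc u z B g hz hg hgd hm A hA (fun i => l i / l i0) i0 hl0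
      hlam {b : B // b ≠ b1} Subtype.val Subtype.val_injective ⟨b1.1.succ, hb1, fun b => ?_⟩ ?_
    · rw [Fin.cons_succ, hgd, if_neg (Ne.symm b.2)]
    · rw [Fintype.card_subtype_compl, Fintype.card_coe, Fintype.card_subtype_eq]
      omega

end Pool.Agent.H46.VS
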