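import Pool.Agent.H17.VS.TargetsA

/-!
# MP_70ba79_ag: independence of the linear equations of normal crossings
-/

set_option autoImplicit false

namespace Pool.Agent.H46.VS

open MvPolynomial SC Pool.Agent.H27.LV Pool.Agent.H17.VG Pool.Agent.H17.CI Pool.Agent.H17.VS

private theorem sum_exps {n : ℕ} (m a : Fin (n + 1)) (e : ℕ) :
    ∑ j, ((if j = m then e else 0) + (if j = a then 1 else 0)) = e + 1 := by
  rw [Finset.sum_add_distrib, Finset.sum_ite_eq' Finset.univ m, Finset.sum_ite_eq' Finset.univ a]
  simp

private theorem mono_exps {k : Type} [Field k] {n : ℕ} (m a : Fin (n + 1)) (e : ℕ) :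
    mono k (fun j => (if j = m then e else 0) + (if j = a then 1 else 0)) = X m ^ e * X a := by
  unfold mono
  rw [X_pow_eq_monomial, show (X a : MvPolynomial (Fin (n + 1)) k) =
    monomial (Finsupp.single a 1) 1 from rfl, monomial_mul, one_mul]
  have h1 : fs (fun j => (if j = m then e else 0) + (if j = a then 1 else 0)) =
      Finsupp.single m e + Finsupp.single a 1 := by
    ext j
    rw [fs_apply, Finsupp.add_apply, Finsupp.single_apply, Finsupp.single_apply]
    congr 1
    · exact if_congr eq_comm rfl rfl
    · exact if_congr eq_comm rfl rfl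
  rw [h1]

private theorem eval_exps {k : Type} [Field k] {n : ℕ} (m a : Fin (n + 1)) (e : ℕ)
    (z : Fin (n + 1) → k) (hz : z m = 1) (b : Fin (n + 1)) :
    eval z (pderiv b (X m ^ e * X a : MvPolynomial (Fin (n + 1)) k)) =
      (e : k) * (if b = m then 1 else 0) * z a + (if b = a then 1 else 0) := by
  rw [pderiv_mul, pderiv_pow, pderiv_X, pderiv_X]
  simp only [map_add, map_mul, map_pow, eval_X, hz, one_pow, mul_one, map_natCast, one_mul]
  by_cases h1 : b = m
  · subst h1
    by_cases h2 : b = a
    · subst h2
      simp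
    · simp [h2, Ne.symm h2]
  · by_cases h2 : b = a
    · subst h2
      simp [h1]
    · simp [h1, h2]

theorem pf_NCB : T_NCB := by
  intro k _ n ι e A z β _ w lam i0 hm hw hq hlam
  classical
  obtain ⟨m, hm⟩ := hm
  obtain ⟨q, hq1, hq2⟩ := hq
  rw [Fintype.linearIndependent_iff]
  intro g hg
  obtain ⟨W, hW⟩ : ∃ W : Fin (n + 1) → k, ∀ a, W a = ∑ b, g (Sum.inr b) * w b a :=
    ⟨_, fun _ => rfl⟩
  have key : ∀ (i : A) (a : Fin (n + 1)),
      g (Sum.inl i) * z a + lam i * ((e i : k) * W m * z a + W a) = 0 := by
    intro i a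
    have h1 := congrFun hg ⟨i.1, ⟨_, sum_exps m a (e i)⟩⟩
    rw [Finset.sum_apply, Fintype.sum_sum_type] at h1
    have h2 : ∑ i' : A, (g (Sum.inl i') • eqc (e := e) z w lam (Sum.inl i'))
        ⟨i.1, ⟨_, sum_exps m a (e i)⟩⟩ = g (Sum.inl i) * z a := by
      rw [Finset.sum_eq_single i]
      · have h3 : eqc (e := e) z w lam (Sum.inl i) ⟨i.1, ⟨_, sum_exps m a (e i)⟩⟩ =
            if i.1 = i.1 then eval z (mono k (fun j => (if j = m then e i else 0) +
              (if j = a then 1 else 0))) else 0 := by
          unfold eqc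
          congr
        rw [Pi.smul_apply, h3, if_pos rfl, mono_exps, smul_eq_mul]
        simp [hm]
      · intro i' _ h4
        have h3 : eqc (e := e) z w lam (Sum.inl i') ⟨i.1, ⟨_, sum_exps m a (e i)⟩⟩ =
            if i.1 = i'.1 then eval z (mono k (fun j => (if j = m then e i else 0) +
              (if j = a then 1 else 0))) else 0 := by
          unfold eqc
          congr
        rw [Pi.smul_apply, h3, if_neg, smul_zero]
        intro h5
        exact h4 (Subtype.ext h5.symm)
      · intro h4
        exact absurd (Finset.mem_univ _) h4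
    have h5 : ∑ b : β, (g (Sum.inr b) • eqc (e := e) z w lam (Sum.inr b))
        ⟨i.1, ⟨_, sum_exps m a (e i)⟩⟩ = lam i * ((e i : k) * W m * z a + W a) := by
      have h3 : ∀ b : β, eqc (e := e) z w lam (Sum.inr b) ⟨i.1, ⟨_, sum_exps m a (e i)⟩⟩ =
          lam i * ((e i : k) * w b m * z a + w b a) := by
        intro b
        have h6 : eqc (e := e) z w lam (Sum.inr b) ⟨i.1, ⟨_, sum_exps m a (e i)⟩⟩ =
            if h : i.1 ∈ A then lam ⟨i.1, h⟩ * ∑ a', eval z (pderiv a' (mono k
              (fun j => (if j = m then e i else 0) + (if j = a then 1 else 0)))) * w b a'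
            else 0 := by
          unfold eqc
          congr
        rw [h6, dif_pos i.2, mono_exps]
        congr 1
        have h7 : ∀ a' : Fin (n + 1),
            eval z (pderiv a' (X m ^ e i * X a : MvPolynomial (Fin (n + 1)) k)) * w b a' =
            (e i : k) * z a * (if a' = m then w b a' else 0) + (if a' = a then w b a' else 0) := by
          intro a'
          rw [eval_exps m a _ z hm a']
          split_ifs <;> ring
        rw [Finset.sum_congr rfl fun a' _ => h7 a', Finset.sum_add_distrib, ← Finset.mul_sum,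
          Finset.sum_ite_eq' Finset.univ m, Finset.sum_ite_eq' Finset.univ a,
          if_pos (Finset.mem_univ _), if_pos (Finset.mem_univ _)]
        ring
      have h8 : ∀ b : β, (g (Sum.inr b) • eqc (e := e) z w lam (Sum.inr b))
          ⟨i.1, ⟨_, sum_exps m a (e i)⟩⟩ =
          lam i * ((e i : k) * (g (Sum.inr b) * w b m) * z a + g (Sum.inr b) * w b a) := by
        intro b
        rw [Pi.smul_apply, h3, smul_eq_mul]
        ring
      rw [Finset.sum_congr rfl fun b _ => h8 b, ← Finset.mul_sum, Finset.sum_add_distrib, hW, hW,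
        ← Finset.sum_mul, ← Finset.mul_sum]
    rw [h2, h5] at h1
    exact h1
  have hWq : W q = 0 := by
    rw [hW]
    exact Finset.sum_eq_zero fun b _ => by rw [hq2 b, mul_zero]
  have h1 := key i0 q
  rw [hlam, hWq, add_zero, one_mul] at h1
  have h2 : g (Sum.inl i0) + (e i0 : k) * W m = 0 := by
    have h3 : (g (Sum.inl i0) + (e i0 : k) * W m) * z q = 0 := by
      rw [← h1]
      ring
    rcases mul_eq_zero.1 h3 with h | h
    · exact h
    · exact absurd h hq1
  have hW0 : ∀ a, W a = 0 := by
    intro a
    have h3 := key i0 a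
    rw [hlam, one_mul] at h3
    have h4 : W a = -((g (Sum.inl i0) + (e i0 : k) * W m) * z a) := by
      linear_combination h3
    rw [h4, h2, zero_mul, neg_zero]
  have hb : ∀ b, g (Sum.inr b) = 0 := by
    refine Fintype.linearIndependent_iff.1 hw (fun b => g (Sum.inr b)) ?_
    funext a
    rw [Finset.sum_apply, Pi.zero_apply, ← hW0 a, hW]
    rfl
  have ha : ∀ i, g (Sum.inl i) = 0 := by
    intro i
    have h3 := key i m
    rw [hW0 m, hm] at h3
    simpa using h3
  intro r
  rcases r with i | b
  · exact ha i
  · exact hb b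

end Pool.Agent.H46.VS
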